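import Pool.Agent.H13.Deg

namespace Pool.Agent.Results.MP_aa4be7_al.Counter
open Pool.Agent.H13.Deg AddMonoidAlgebra

abbrev L := AddMonoidAlgebra ℝ (Fin 3 → ℤ)

noncomputable def ev : L →ₐ[ℝ] Sm 2 := AddMonoidAlgebra.lift ℝ (Sm 2) (Fin 3 → ℤ)
  { toFun := fun m => ⟨fun x => Real.exp (Real.log 3 * (m.toAdd 0 * x 0 + m.toAdd 1 * x 1)),
      show ContDiff ℝ ⊤ _ by fun_prop⟩
    map_one' := Subtype.ext (funext fun x => by simp)
    map_mul' := fun a b => Subtype.ext (funext fun x => by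
      simp [← Real.exp_add]; ring) }

def dg : (Fin 3 → ℤ) →+ ℤ where
  toFun m := ∑ i, m i
  map_zero' := by simp
  map_add' a b := by simp [Finset.sum_add_distrib]

noncomputable def L0 : Subalgebra ℝ L := (gradeBy ℝ dg 0).toSubalgebra
  (SetLike.one_mem_graded _) fun _ _ a b => by simpa using SetLike.mul_mem_graded a b

noncomputable def A : Subalgebra ℝ L where
  carrier := {a | a ∈ L0 ∧ Bd (ev a)}
  mul_mem' := fun {f g} (a : f ∈ L0 ∧ Bd (ev f)) (b : g ∈ L0 ∧ Bd (ev g)) =>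
    show _ ∧ _ from ⟨mul_mem a.1 b.1, map_mul ev f g ▸ a.2.mul b.2⟩
  add_mem' := fun {f g} (a : f ∈ L0 ∧ Bd (ev f)) (b : g ∈ L0 ∧ Bd (ev g)) =>
    show _ ∧ _ from ⟨add_mem a.1 b.1, map_add ev f g ▸ a.2.add b.2⟩
  algebraMap_mem' := fun c => show _ ∧ _ from ⟨L0.algebraMap_mem c, ev.commutes c ▸ Bd.alg c⟩

noncomputable def T (j : Fin 2) : L := single (Pi.single j.castSucc 1 - Pi.single 2 1) 1

theorem evT (j : Fin 2) (x) : (ev (T j)).1 x = Real.exp (Real.log 3 * x j) := by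
  fin_cases j <;> simp [ev, T]

theorem DT (i j : Fin 2) : D i (ev (T j)) = if i = j then Real.log 3 • ev (T j) else 0 := by
  refine Subtype.ext (funext fun x => ?_)
  rw [D_apply, funext (evT j), (((hasFDerivAt_apply j x).const_mul (Real.log 3)).exp).fderiv]
  split_ifs with h
  · simp [h, evT, mul_comm]
  · simp [Pi.single_apply, Ne.symm h]

noncomputable def f : L := (1 - (T 0 - 2) ^ 2) * (1 - (T 1 - 2) ^ 2)

theorem TL (j) : T j ∈ L0 := by
  have := single_mem_gradeBy (R := ℝ) dg (Pi.single j.castSucc 1 - Pi.single 2 1) 1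
  rwa [show dg (Pi.single j.castSucc 1 - Pi.single 2 1) = 0 by simp [dg]] at this

theorem XL (j) : T j - 2 ∈ L0 := sub_mem (TL j) (ofNat_mem _ _)

theorem aL (j) : 1 - (T j - 2) ^ 2 ∈ L0 := sub_mem (one_mem _) (pow_mem (XL j) _)

theorem D2 (i : Fin 2) : D i (2 : Sm 2) = 0 := (D i).map_natCast 2

theorem c2 (x) : (2 : Sm 2).1 x = 2 := rfl

theorem c3 (x) : (3 : Sm 2).1 x = 3 := rfl

theorem fA {h : L} (hh : h ∈ L0) : f * h ∈ A := by
  refine ⟨mul_mem (mul_mem (aL 0) (aL 1)) hh, fun x => ?_⟩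
  have e : ∀ j, x j = 0 ∨ x j = 1 → 1 - ((ev (T j)).1 x - 2) ^ 2 = 0 := by
    rintro j (h | h) <;> rw [evT, h]
    · norm_num
    · rw [mul_one, Real.exp_log (by norm_num)]; norm_num
  simp only [f, map_mul, map_sub, map_pow, map_one, map_ofNat, Derivation.leibniz,
    Derivation.leibniz_pow, DT, D2]
  exact ⟨fun h => by simp [c2, e 0 h], fun h => by simp [c2, e 1 h]⟩

noncomputable def v : Fin 3 → A :=
  ![⟨_, fA (XL 0)⟩, ⟨_, fA (XL 1)⟩, 1 - 3 * ⟨_, fA (one_mem _)⟩]

theorem uni : ∃ b : Fin 3 → A, ∑ i, v i * b i = 1 := by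
  have h : (2 : A) * algebraMap ℝ A (1 / 2) = 1 := by
    rw [← map_ofNat (algebraMap ℝ A), ← map_mul]; simp
  generalize algebraMap ℝ A (1 / 2) = c at h
  let w : A := ⟨_, fA (one_mem _)⟩
  refine ⟨![27 * c * ⟨_, fA (XL 0)⟩, 27 * c * ⟨_, fA (mul_mem (XL 1) (aL 0))⟩,
    c * (2 + 6 * w - 9 * w ^ 2)], (show Function.Injective A.val from Subtype.val_injective) ?_⟩
  have h := congrArg A.val h
  simp only [Fin.sum_univ_three, v, w, Matrix.cons_val, map_add, map_mul, map_sub, map_pow,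
    map_ofNat, map_one] at *
  simp only [Subalgebra.coe_val, f] at *
  linear_combination h

noncomputable def e (u : Fin 3 → A) : Fin 3 → Sm 2 := fun k => ev (u k)

theorem nz {u w : Fin 3 → A} {g : Matrix (Fin 3) (Fin 3) A} (h : Matrix.vecMul w g = u) {x}
    (hu : ∃ k, (e u k).1 x ≠ 0) : ∃ k, (e w k).1 x ≠ 0 := by
  by_contra hc
  push Not at hc
  obtain ⟨k, hk⟩ := hu
  simp only [e] at hc
  exact hk (by simp [← h, e, Matrix.vecMul, dotProduct, Fin.sum_univ_three, hc])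

theorem inv {g : GL (Fin 3) A} (hg : g ∈ Subgroup.closure
    {g : GL (Fin 3) A | ∃ i j, i ≠ j ∧ ∃ c, g.val = 1 + Matrix.single i j c}) :
    ∀ u : Fin 3 → A, (∀ x, ∃ k, (e u k).1 x ≠ 0) → I (e (Matrix.vecMul u g.val)) = I (e u) := by
  induction hg using Subgroup.closure_induction with
  | one => simp
  | mul g g' _ _ h h' =>
    intro u hu
    rw [Units.val_mul, ← Matrix.vecMul_vecMul, h' _ fun x => nz (g := g⁻¹.val) (by simp) (hu x),
      h u hu]
  | inv g _ h =>
    intro u hu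
    rw [← h _ fun x => nz (g := g.val) (by simp) (hu x)]
    simp
  | mem g h =>
    obtain ⟨i, j, hij, c, h⟩ := h
    intro u hu
    rw [h, Matrix.vecMul_add, Matrix.vecMul_one, ← hom2 (e u) (e (Matrix.vecMul u
      (Matrix.single i j c))) (fun k => (u k).2.2) (fun k => (Matrix.vecMul u _ k).2.2)
      fun s x => ?_]
    · congr 1
      funext k
      simp [e]
    · by_contra hc
      push Not at hc
      have h1 : ∀ k, (e (Matrix.vecMul u (Matrix.single i j c)) k).1 x =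
          if k = j then (e u i).1 x * (ev c).1 x else 0 := fun k => by
        split_ifs with hk
        · simp [e, hk, Matrix.vecMul, dotProduct, Matrix.single_apply]
        · simp [e, Ne.symm hk, Matrix.vecMul, dotProduct, Matrix.single_apply]
      have h2 := hc i
      rw [h1, if_neg hij, mul_zero, add_zero] at h2
      obtain ⟨k, hk⟩ := hu x
      have h3 := hc k
      rw [h1, h2] at h3
      exact hk (by simpa using h3)

theorem ineq {a b : ℝ} (ha : 0 < a) (ha1 : a ≤ 1) (hb : 0 < b) (hb1 : b ≤ 1) :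
    5 * a * b - 3 * (a * b) ^ 2 - 2 * a - 2 * b < 0 := by
  rcases le_or_gt b (2 / 3) with h | h
  · nlinarith [mul_pos ha hb]
  rcases le_or_gt a (2 / 3) with h' | h'
  · nlinarith [mul_pos ha hb]
  · have : 4 / 9 < a * b := by nlinarith
    nlinarith

theorem Iv : I (e v) ≠ 0 := by
  have h3 : 0 < Real.log 3 := Real.log_pos (by norm_num)
  have key : ∀ x, (tp (e v) (D 0 ∘ e v) (D 1 ∘ e v)).1 x = Real.log 3 ^ 2 * (ev (T 0)).1 x *
      (ev (T 1)).1 x * ((1 - ((ev (T 0)).1 x - 2) ^ 2) * (1 - ((ev (T 1)).1 x - 2) ^ 2)) *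
      (5 * (1 - ((ev (T 0)).1 x - 2) ^ 2) * (1 - ((ev (T 1)).1 x - 2) ^ 2) -
      3 * ((1 - ((ev (T 0)).1 x - 2) ^ 2) * (1 - ((ev (T 1)).1 x - 2) ^ 2)) ^ 2 -
      2 * (1 - ((ev (T 0)).1 x - 2) ^ 2) - 2 * (1 - ((ev (T 1)).1 x - 2) ^ 2)) := by
    intro x
    have D3 : ∀ i : Fin 2, D i (3 : Sm 2) = 0 := fun i => (D i).map_natCast 3
    have : e v = ![ev f * (ev (T 0) - 2), ev f * (ev (T 1) - 2), 1 - 3 * ev f] := by
      funext k
      fin_cases k
      · exact (map_mul ev _ _).trans (by rw [map_sub, map_ofNat]; rfl)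
      · exact (map_mul ev _ _).trans (by rw [map_sub, map_ofNat]; rfl)
      · change ev (1 - 3 * (f * 1)) = _
        simp [map_ofNat]
    simp [tp, this, f, map_ofNat, DT, D2, D3, c2, c3]
    ring
  have hb : ∀ y ∈ Set.Icc (0 : ℝ) 1, 0 ≤ 1 - (Real.exp (Real.log 3 * y) - 2) ^ 2 := by
    intro y hy
    have h1 := Real.one_le_exp (mul_nonneg h3.le hy.1)
    have h2 := Real.exp_le_exp.2 (mul_le_of_le_one_right h3.le hy.2)
    rw [Real.exp_log (by norm_num)] at h2
    nlinarith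
  obtain ⟨b, hb'⟩ := uni
  refine Ineg _ (fun x => ?_) (fun x hx => ?_) ?_
  · by_contra hc
    push Not at hc
    have := congrArg (fun a : A => (ev a).1 x) hb'
    simp only [e] at hc
    simp [Fin.sum_univ_three, hc] at this
  · rw [key, evT, evT]
    have h0 := hb _ ⟨hx.1 0, hx.2 0⟩
    have h1 := hb _ ⟨hx.1 1, hx.2 1⟩
    rcases h0.eq_or_lt with h | h0
    · simp [← h]
    rcases h1.eq_or_lt with h | h1
    · simp [← h]
    exact mul_nonpos_of_nonneg_of_nonpos (by positivity)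
      (ineq h0 (by nlinarith) h1 (by nlinarith)).le
  · rw [key, evT, evT]
    have h0 : 0 < 1 - (Real.exp (Real.log 3 * (1 / 2)) - 2) ^ 2 := by
      have h1 := Real.one_lt_exp_iff.2 (show 0 < Real.log 3 * (1 / 2) by positivity)
      have h2 := Real.exp_lt_exp.2 (show Real.log 3 * (1 / 2) < Real.log 3 by linarith)
      rw [Real.exp_log (by norm_num)] at h2
      nlinarith
    exact mul_ne_zero (by positivity) (ineq h0 (by nlinarith) h0 (by nlinarith)).ne

/-- The elementary group `E₃(R)`. -/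
def E3 (R : Type) [CommRing R] : Subgroup (GL (Fin 3) R) :=
  Subgroup.closure {g | ∃ i j, i ≠ j ∧ ∃ c, g.val = 1 + Matrix.single i j c}

/-- Some unimodular row of length 3 is not the first row of an elementary matrix. -/
def NotTransitive (R : Type) [CommRing R] : Prop :=
  ∃ v : Fin 3 → R, (∃ b : Fin 3 → R, ∑ i, v i * b i = 1) ∧ ∀ g ∈ E3 R, g.val 0 ≠ v

/-- The degree `k` component of the Laurent polynomial ring. -/
noncomputable def comp (k : ℤ) : Submodule ℝ L := gradeBy ℝ (fun m : Fin 3 → ℤ => ∑ i, m i) k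

def Graded (M : Submodule ℝ L) : Prop := M = ⨆ k : ℤ, M ⊓ comp k

theorem result : IsNoetherianRing ℝ ∧ ringKrullDim ℝ = 0 ∧
    ∃ A : Subalgebra ℝ L, Graded A.toSubmodule ∧ NotTransitive A := by
  refine ⟨inferInstance, ringKrullDim_eq_zero_of_field ℝ, A, le_antisymm (le_iSup_of_le 0
    (le_inf le_rfl fun a ha => ha.1)) (iSup_le fun _ => inf_le_left), v, uni, fun g hg h => Iv ?_⟩
  have := inv hg (Pi.single 0 1) fun x => ⟨0, by simp [e]⟩
  rw [Matrix.single_one_vecMul] at this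
  rw [← h]
  refine this.trans ?_
  simp [I, ig, tp, e]

end Pool.Agent.Results.MP_aa4be7_al.Counter
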